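import Mathlib

namespace Pool.Agent.H.MP_ef2f7d_an

open Relation Function

lemma tau {W : Type} (R : W → W → Prop) (hR : ∀ w, R w w) (b b' : W) (h : ReflTransGen R b' b) :
    ∃ τ : W ≃ W, τ b = b' ∧ ∀ x ≠ b, R x (τ x) := by
  classical
  let D : ℕ → Set W := fun n => Nat.rec {b} (fun _ s => s ∪ {x | ∃ w ∈ s, R x w}) n
  have a : ∀ n, ∀ x ∈ D n, ∃ τ : W ≃ W, τ b = x ∧ (∀ y ≠ b, R y (τ y)) ∧ ∀ y ∉ D n, τ y = y := by
    intro n
    induction n with
    | zero => exact fun x hx => ⟨Equiv.refl _, hx.symm, fun y _ => hR y, fun _ _ => rfl⟩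
    | succ n ih =>
      intro x hx
      rcases em (x ∈ D n) with c | c
      · obtain ⟨τ, a1, a2, a3⟩ := ih x c
        exact ⟨τ, a1, a2, fun y hy => a3 y fun h => hy (Or.inl h)⟩
      obtain ⟨w, w1, w2⟩ := hx.resolve_left c
      obtain ⟨τ, a1, a2, a3⟩ := ih w w1
      refine ⟨τ.trans (Equiv.swap w x), by simp [a1], fun y hy => ?_, fun y hy => ?_⟩
      · by_cases e : y = x
        · simpa [e, a3 x c] using w2
        · rw [Equiv.trans_apply, Equiv.swap_apply_of_ne_of_ne (fun h => hy (τ.injective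
            (h.trans a1.symm))) fun h => e (τ.injective (h.trans (a3 x c).symm))]
          exact a2 y hy
      · rw [Equiv.trans_apply, a3 y fun h => hy (Or.inl h), Equiv.swap_apply_of_ne_of_ne
          (fun h : y = w => hy (Or.inl (h ▸ w1))) fun h : y = x => hy (h ▸ hx)]
  obtain ⟨n, hn⟩ : ∃ n, b' ∈ D n := by
    induction h using ReflTransGen.head_induction_on with
    | refl => exact ⟨0, rfl⟩
    | head h1 _ ih => exact ih.elim fun n hn => ⟨n + 1, Or.inr ⟨_, hn, h1⟩⟩
  exact (a n b' hn).imp fun τ h => ⟨h.1, h.2.1⟩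

lemma link {ι W : Type} [Fintype ι] (R : W → W → Prop) (hR : ∀ w, R w w)
    (hc : ∀ u v, ReflTransGen R u v) (P : (ι → W) → Prop) (A : Set ι) (f g : {f // P f})
    (h : ∀ i ∈ A, g.1 i = f.1 i) (hP : ∀ u, (∀ i ∈ A, u i = f.1 i) → P u) :
    ReflTransGen (fun u v : {f // P f} => ∀ i, R (u.1 i) (v.1 i)) f g := by
  classical
  have st : ∀ (u : ι → W) (hu : ∀ i ∈ A, u i = f.1 i) (i : ι) (hi : i ∉ A) (x : W),
      ReflTransGen (fun u v : {f // P f} => ∀ i, R (u.1 i) (v.1 i)) ⟨u, hP u hu⟩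
        ⟨update u i x, hP _ fun j hj => by
          rw [update_of_ne (fun e : j = i => hi (e ▸ hj)), hu j hj]⟩ := by
    intro u hu i hi x
    induction hc (u i) x with
    | refl => simpa using ReflTransGen.refl
    | tail _ h2 ih =>
      refine ih.tail fun j => ?_
      by_cases e : j = i
      · simpa [e] using h2
      · simpa [update_of_ne e] using hR _
  have pa : ∀ D : Finset ι, ∀ i ∈ A, D.piecewise g.1 f.1 i = f.1 i := fun D i hi => by
    unfold Finset.piecewise; split_ifs; exacts [h i hi, rfl]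
  have : ∀ D : Finset ι, ReflTransGen (fun u v : {f // P f} => ∀ i, R (u.1 i) (v.1 i)) f
      ⟨D.piecewise g.1 f.1, hP _ (pa D)⟩ := fun D => by
    induction D using Finset.induction_on with
    | empty => simpa using ReflTransGen.refl
    | insert i D _ ih =>
      by_cases c : i ∈ A
      · simpa [Finset.piecewise_insert, h i c, ← pa D i c] using ih
      · simpa [Finset.piecewise_insert] using ih.trans (st _ (pa D) i c (g.1 i))
  simpa using this Finset.univ

structure Lv where
  W : Type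
  fin : Fintype W
  ne : Nonempty W
  L : ℤ
  L0 : 0 < L
  rel : ZMod 3 → W → W → Prop
  refl : ∀ c w, rel c w w
  conn : ∀ c u v, ReflTransGen (rel c) u v
  lt : W → ℤ → ZMod 3
  G : ℤ → W ≃ W

attribute [instance] Lv.fin Lv.ne

namespace Lv

variable (a : Lv)

def S : ℕ := 3 * Fintype.card (Fin 3 → a.W)

lemma S0 : 0 < a.S := Nat.mul_pos (by norm_num) Fintype.card_pos

def idx (t : ℤ) : Fin a.S × Fin 3 :=
  (⟨(t / 3 % a.S).toNat, by
    have := a.S0
    have := Int.emod_lt_of_pos (t / 3) (b := a.S) (by omega)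
    omega⟩, ⟨(t % 3).toNat, by omega⟩)

abbrev NW : Type := {U : Fin a.S × Fin 3 → a.W // ∀ d : Fin 3 → a.W, ∃ s, ∀ r, U (s, r) = d r}

lemma fresh (D : Finset (Fin a.S)) (h : D.card ≤ 2 * Fintype.card (Fin 3 → a.W)) :
    ∃ σ : (Fin 3 → a.W) ↪ Fin a.S, ∀ d, σ d ∉ D := by
  obtain ⟨σ, h⟩ := Embedding.exists_of_card_le_finset (α := Fin 3 → a.W) (s := Dᶜ) (by
    rw [Finset.card_compl, Fintype.card_fin]
    have : a.S = 3 * Fintype.card (Fin 3 → a.W) := rfl
    omega)
  exact ⟨σ, fun d => by simpa using h ⟨d, rfl⟩⟩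

noncomputable def put (σ : (Fin 3 → a.W) ↪ Fin a.S) (U : Fin a.S × Fin 3 → a.W) : a.NW :=
  ⟨fun x => extend σ id (fun s r => U (s, r)) x.1 x.2, fun d => ⟨σ d, fun r => by
    simp only [σ.injective.extend_apply, id]⟩⟩

lemma nconn (c : ZMod 3) (U V : a.NW) :
    ReflTransGen (fun u v : a.NW => ∀ i, a.rel c (u.1 i) (v.1 i)) U V := by
  classical
  choose s hs using U.2
  choose t ht using V.2
  obtain ⟨σ, h⟩ := a.fresh (Finset.univ.image s ∪ Finset.univ.image t)
    ((Finset.card_union_le _ _).trans (by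
      have := Finset.card_image_le (s := Finset.univ) (f := s)
      have := Finset.card_image_le (s := Finset.univ) (f := t)
      simp only [Finset.card_univ] at *
      omega))
  simp only [Finset.mem_union, Finset.mem_image, Finset.mem_univ, true_and, not_or,
    not_exists] at h
  have l := link (a.rel c) (a.refl c) (a.conn c)
    fun U : Fin a.S × Fin 3 → a.W => ∀ d : Fin 3 → a.W, ∃ s, ∀ r, U (s, r) = d r
  refine (l {x | ∃ d, s d = x.1} U (a.put σ U.1) ?_ fun u hu d =>
    ⟨s d, fun r => (hu _ ⟨d, rfl⟩).trans (hs d r)⟩).trans ((l {x | ∃ d, σ d = x.1} _ (a.put σ V.1) ?_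
      fun u hu d => ⟨σ d, fun r => (hu _ ⟨d, rfl⟩).trans ?_⟩).trans
    (l {x | ∃ d, t d = x.1} _ V ?_ fun u hu d => ⟨t d, fun r => (hu _ ⟨d, rfl⟩).trans ?_⟩))
  · rintro ⟨_, r⟩ ⟨d, rfl⟩
    simp only [put]
    rw [extend_apply' _ _ _ fun ⟨e, he⟩ => (h e).1 d he.symm]
  · rintro ⟨_, r⟩ ⟨d, rfl⟩
    simp only [put, σ.injective.extend_apply]
  · simp only [put, σ.injective.extend_apply, id]
  · rintro ⟨_, r⟩ ⟨d, rfl⟩
    simp only [put]
    rw [extend_apply' _ _ _ fun ⟨e, he⟩ => (h e).2 d he.symm]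
  · simp only [put]
    rw [extend_apply' _ _ _ fun ⟨e, he⟩ => (h e).2 d he.symm, ht]

lemma exG (y : Fin a.S × Fin 3) (g : a.W ≃ a.W) (c : a.W → ZMod 3) : ∃ H : a.NW ≃ a.NW, ∀ U,
    (H U).1 y = g (U.1 y) ∧ (∀ x ≠ y, a.rel (c (U.1 y)) (U.1 x) ((H U).1 x)) ∧
      ∀ x : Fin a.S × Fin 3, x.2 ≠ y.2 → (H U).1 x = U.1 x := by
  classical
  obtain ⟨s, r⟩ := y
  choose τ t1 t2 using fun b => tau (a.rel (c b)) (a.refl _) b (g b) (a.conn _ _ _)
  let θ : (Fin 3 → a.W) → (Fin 3 → a.W) → Fin 3 → a.W := fun e d =>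
    if ∀ q ≠ r, d q = e q then update d r (τ (e r) (d r)) else d
  have θ1 : ∀ e d q, q ≠ r → θ e d q = d q := fun e d q hq => by
    simp only [θ]; split_ifs; exacts [update_of_ne hq _ _, rfl]
  have θ2 : ∀ e, Injective (θ e) := fun e d d' h => by
    have k : ∀ q ≠ r, d q = d' q := fun q hq => by rw [← θ1 e d q hq, h, θ1 e d' q hq]
    by_cases x : ∀ q ≠ r, d q = e q
    · have := congrFun h r
      simp only [θ, if_pos x, if_pos fun q hq => (k q hq).symm.trans (x q hq), update_self] at this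
      exact funext fun q => if hq : q = r then hq ▸ (τ _).injective this else k q hq
    · simpa only [θ, if_neg x, if_neg fun z : ∀ q ≠ r, d' q = e q =>
        x fun q hq => (k q hq).trans (z q hq)] using h
  have θ3 : ∀ e, θ e e r = g (e r) := fun e => by simp [θ, t1]
  let row : a.NW → Fin a.S → Fin 3 → a.W := fun U s r => U.1 (s, r)
  let F : a.NW → Fin a.S → Fin 3 → a.W := fun U t =>
    if t ≠ s ∧ ∃ t' ≠ s, row U t' = row U s then row U t else θ (row U s) (row U t)
  have F1 : ∀ U, F U s = θ (row U s) (row U s) := fun U => if_neg (by simp)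
  have F2 : ∀ U, (∃ t' ≠ s, row U t' = row U s) → (∀ t ≠ s, F U t = row U t) ∧
      ∀ d, ∃ t ≠ s, F U t = d := fun U h => by
    have k : ∀ t ≠ s, F U t = row U t := fun t ht => if_pos ⟨ht, h⟩
    refine ⟨k, fun d => ?_⟩
    obtain ⟨t, ht⟩ := U.2 d
    by_cases e : t = s
    · obtain ⟨t', h1, h2⟩ := h
      exact ⟨t', h1, (k t' h1).trans (h2.trans (funext (e ▸ ht)))⟩
    · exact ⟨t, e, (k t e).trans (funext ht)⟩
  have F3 : ∀ U, ¬ (∃ t' ≠ s, row U t' = row U s) → ∀ t, F U t = θ (row U s) (row U t) :=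
    fun U h t => if_neg fun z => h z.2
  let H : a.NW → a.NW := fun U => ⟨fun x => F U x.1 x.2, fun d => by
    by_cases h : ∃ t' ≠ s, row U t' = row U s
    · exact ((F2 U h).2 d).imp fun t ht r => congrFun ht.2 r
    · obtain ⟨d', hd⟩ := Finite.surjective_of_injective (θ2 (row U s)) d
      obtain ⟨t, ht⟩ := U.2 d'
      exact ⟨t, fun r => show F U t r = d r by
        rw [F3 U h, show row U t = d' from funext ht, hd]⟩⟩
  have inj : Injective H := fun U V h => by
    have e : ∀ t, F U t = F V t := fun t => funext fun q => congrFun (congrArg Subtype.val h) (t, q)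
    have e1 : row U s = row V s := funext fun q => by
      have := congrFun (e s) q
      rw [F1, F1] at this
      by_cases hq : q = r
      · rw [hq, θ3, θ3] at this; exact hq ▸ g.injective this
      · rwa [θ1 _ _ _ hq, θ1 _ _ _ hq] at this
    have mix : ∀ U V, (∀ t, F U t = F V t) → (∃ t' ≠ s, row U t' = row U s) →
        ∃ t' ≠ s, row V t' = row V s := fun U V e h => by
      by_contra h'
      obtain ⟨t, t1, t2⟩ := (F2 U h).2 (F U s)
      rw [e, e, F3 V h', F3 V h'] at t2
      exact h' ⟨t, t1, θ2 _ t2⟩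
    suffices ∀ t, row U t = row V t from Subtype.ext (funext fun x => congrFun (this x.1) x.2)
    intro t
    by_cases c : ∃ t' ≠ s, row U t' = row U s
    · by_cases ht : t = s
      · rwa [ht]
      · rw [← (F2 U c).1 t ht, e, (F2 V (mix U V e c)).1 t ht]
    · have := e t
      rw [F3 U c, F3 V fun z => c (mix V U (fun t => (e t).symm) z), e1] at this
      exact θ2 _ this
  refine ⟨Equiv.ofBijective H (Finite.injective_iff_bijective.1 inj), fun U =>
    ⟨(congrFun (F1 U) r).trans (θ3 _), ?_, ?_⟩⟩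
  · rintro ⟨t, q⟩ hx
    show a.rel _ (row U t q) (F U t q)
    simp only [F]
    split_ifs with h
    · exact a.refl _ _
    by_cases hq : q = r
    swap
    · rw [θ1 _ _ _ hq]; exact a.refl _ _
    subst hq
    simp only [θ]
    split_ifs with z
    · rw [update_self]
      have ht : t ≠ s := fun e => hx (by rw [e])
      exact t2 _ _ fun e => h ⟨ht, t, ht, funext fun p => if hp : p = q then hp ▸ e else z p hp⟩
    · exact a.refl _ _
  · rintro ⟨t, q⟩ hq
    show F U t q = row U t q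
    simp only [F]
    split_ifs
    exacts [rfl, θ1 _ _ _ hq]

noncomputable def next : Lv where
  W := a.NW
  fin := by classical exact inferInstance
  ne := ⟨a.put (a.fresh ∅ (by simp)).choose fun _ => Classical.arbitrary _⟩
  L := a.L * (3 * a.S)
  L0 := by have := a.L0; have := a.S0; positivity
  rel c U V := ∀ x, a.rel c (U.1 x) (V.1 x)
  refl c _ _ := a.refl c _
  conn := a.nconn
  lt U p := a.lt (U.1 (a.idx (p / a.L))) (p % a.L)
  G p := (a.exG (a.idx (p / a.L)) (a.G (p % a.L)) fun b => a.lt b (p % a.L)).choose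

end Lv

def base : Lv where
  W := ZMod 3
  fin := inferInstance
  ne := inferInstance
  L := 1
  L0 := one_pos
  rel c a b := ¬ (a = c ∧ b + 1 = c)
  refl := by decide
  conn c u v := by
    have : ∀ c u v : ZMod 3, ∃ w, ¬ (u = c ∧ w + 1 = c) ∧ ¬ (w = c ∧ v + 1 = c) := by decide
    obtain ⟨w, a, b⟩ := this c u v
    exact (ReflTransGen.single a).tail b
  lt w _ := w
  G _ := Equiv.subRight 1

noncomputable def lv : ℕ → Lv
  | 0 => base
  | k + 1 => (lv k).next

end Pool.Agent.H.MP_ef2f7d_an
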