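import Mathlib
import Pool.Agent.H.MP_ef2f7d_an.A

namespace Pool.Agent.H.MP_ef2f7d_an

open Relation Function Filter Topology Set

instance (a : Lv) : TopologicalSpace a.W := ⊥
instance (a : Lv) : DiscreteTopology a.W := ⟨rfl⟩

abbrev Am : Type := (∀ k, ℤ → (lv k).W) × (ℕ → ℤ)

noncomputable def el (k : ℕ) : ℤ := 3 * (lv k).S

lemma el3 (k : ℕ) : 3 ≤ el k := by have := (lv k).S0; unfold el; omega

lemma LS (k : ℕ) : (lv (k + 1)).L = (lv k).L * el k := rfl

noncomputable def sub (k : ℕ) (U : (lv (k + 1)).W) (t : ℤ) : (lv k).W := U.1 ((lv k).idx t)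

lemma sub_per (k : ℕ) (U : (lv (k + 1)).W) (t q : ℤ) : sub k U (t + el k * q) = sub k U t := by
  have a : (t + el k * q) / 3 % (lv k).S = t / 3 % (lv k).S := by
    rw [el, mul_assoc, Int.add_mul_ediv_left _ _ (by norm_num), Int.add_mul_emod_self_left]
  have b : (t + el k * q) % 3 = t % 3 := by rw [el, mul_assoc, Int.add_mul_emod_self_left]
  simp only [sub, Lv.idx, a, b]

def Ok1 (ω : ℕ → ℤ) (k : ℕ) : Prop := (0 ≤ ω k ∧ ω k < (lv k).L) ∧ ω k = ω (k + 1) % (lv k).L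

def Cp (z : ∀ k, ℤ → (lv k).W) (ω : ℕ → ℤ) (k : ℕ) (m : ℤ) : Prop :=
  z k m = sub k (z (k + 1) ((m + ω (k + 1) / (lv k).L) / el k)) (m + ω (k + 1) / (lv k).L)

def Ok (ξ : Am) : Prop := ∀ k m, Ok1 ξ.2 k ∧ Cp ξ.1 ξ.2 k m

lemma jb {ω : ℕ → ℤ} {k : ℕ} (h : Ok1 ω (k + 1)) :
    0 ≤ ω (k + 1) / (lv k).L ∧ ω (k + 1) / (lv k).L < el k :=
  ⟨Int.ediv_nonneg h.1.1 (lv k).L0.le, Int.ediv_lt_of_lt_mul (lv k).L0 (mul_comm (lv k).L _ ▸ h.1.2)⟩

lemma shr {j l : ℤ} (m : ℤ) (h0 : 0 ≤ j) (h1 : j < l) (h : 3 ≤ l) :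
    ((m + j) / l).natAbs ≤ 1 ∨ ((m + j) / l).natAbs < m.natAbs := by
  have a := Int.mul_ediv_add_emod (m + j) l
  have b := Int.emod_nonneg (m + j) (b := l) (by omega)
  have c := Int.emod_lt_of_pos (m + j) (b := l) (by omega)
  generalize (m + j) / l = q at *
  rcases le_total 0 q with d | d
  · by_cases e : q ≤ 1
    · omega
    · have : 3 * (q - 1) ≤ l * (q - 1) := mul_le_mul_of_nonneg_right h (by omega)
      right
      have : l * (q - 1) = l * q - l := by ring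
      omega
  · by_cases e : -1 ≤ q
    · omega
    · have : 3 * (-q - 1) ≤ l * (-q - 1) := mul_le_mul_of_nonneg_right h (by omega)
      right
      have : l * (-q - 1) = -(l * q) - l := by ring
      omega

noncomputable def act (n : ℤ) (ξ : Am) : Am :=
  (fun k m => ξ.1 k (m + (ξ.2 k + n) / (lv k).L), fun k => (ξ.2 k + n) % (lv k).L)

lemma Ok.act {ξ : Am} (h : Ok ξ) (n : ℤ) : Ok (act n ξ) := fun k m => by
  have l0 := (lv k).L0
  have e := (h k 0).1.2
  refine ⟨⟨⟨Int.emod_nonneg _ l0.ne', Int.emod_lt_of_pos _ l0⟩, ?_⟩, ?_⟩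
  · simp only [MP_ef2f7d_an.act]
    rw [e, LS, Int.emod_emod_of_dvd _ (dvd_mul_right _ _), Int.emod_add_emod]
  · simp only [Cp, MP_ef2f7d_an.act]
    obtain ⟨N, hN⟩ : ∃ N, N = ξ.2 (k + 1) + n := ⟨_, rfl⟩
    have a : m + (ξ.2 k + n) / (lv k).L + ξ.2 (k + 1) / (lv k).L =
        m + N % (lv (k + 1)).L / (lv k).L + el k * (N / (lv (k + 1)).L) := by
      rw [add_assoc, add_assoc, ← Int.add_mul_ediv_left _ _ l0.ne',
        ← Int.add_mul_ediv_left _ _ l0.ne', ← mul_assoc, ← LS, Int.emod_add_mul_ediv, e,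
        add_right_comm, Int.emod_add_mul_ediv, hN]
    rw [(h k _).2, a, sub_per, Int.add_mul_ediv_left _ _ (by have := el3 k; omega), hN]

lemma act_add (a b : ℤ) (ξ : Am) : act a (act b ξ) = act (b + a) ξ := by
  refine Prod.ext (funext fun k => funext fun m => ?_) (funext fun k => ?_) <;> simp only [act]
  · rw [add_assoc, ← Int.add_mul_ediv_left _ _ (lv k).L0.ne', add_right_comm,
      Int.emod_add_mul_ediv, add_assoc]
  · rw [Int.emod_add_emod, add_assoc]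

lemma Ok.zero {ξ : Am} (h : Ok ξ) : MP_ef2f7d_an.act 0 ξ = ξ := by
  refine Prod.ext (funext fun k => funext fun m => ?_) (funext fun k => ?_) <;>
    simp only [MP_ef2f7d_an.act, add_zero]
  · rw [Int.ediv_eq_zero_of_lt (h k 0).1.1.1 (h k 0).1.1.2, add_zero]
  · exact Int.emod_eq_of_lt (h k 0).1.1.1 (h k 0).1.1.2

lemma agree {ξ η : Am} (h : Ok ξ) (h' : Ok η) (e k : ℕ) (h1 : ξ.2 (k + e) = η.2 (k + e))
    (h2 : ∀ m : ℤ, m.natAbs ≤ 1 → ξ.1 (k + e) m = η.1 (k + e) m) :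
    ξ.2 k = η.2 k ∧ ∀ m : ℤ, m.natAbs ≤ e + 1 → ξ.1 k m = η.1 k m := by
  induction e generalizing k with
  | zero => exact ⟨h1, h2⟩
  | succ e ih =>
    obtain ⟨a, b⟩ := ih (k + 1) (by rwa [add_right_comm]) (by rwa [add_right_comm])
    refine ⟨by rw [(h k 0).1.2, (h' k 0).1.2, a], fun m hm => ?_⟩
    have := shr m (jb (h (k + 1) 0).1).1 (jb (h (k + 1) 0).1).2 (el3 k)
    rw [(h k m).2, (h' k m).2, ← a, b _ (by omega)]

noncomputable def ext (t : ∀ k, ℤ → (lv k).W) (ω : ℕ → ℤ) (h : ∀ k, Ok1 ω k) (k : ℕ) (m : ℤ) :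
    (lv k).W :=
  if _hm : m.natAbs ≤ 1 then t k m else
    sub k (ext t ω h (k + 1) ((m + ω (k + 1) / (lv k).L) / el k)) (m + ω (k + 1) / (lv k).L)
termination_by m.natAbs
decreasing_by
  have := shr m (jb (h (k + 1))).1 (jb (h (k + 1))).2 (el3 k)
  omega

lemma ext1 {t ω h} (k : ℕ) {m : ℤ} (hm : m.natAbs ≤ 1) : ext t ω h k m = t k m := by
  rw [ext, dif_pos hm]

lemma ext_ok {t ω h} (c : ∀ k (m : ℤ), m.natAbs ≤ 1 → Cp t ω k m) : Ok (ext t ω h, ω) :=
  fun k m => ⟨h k, by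
    have := shr m (jb (h (k + 1))).1 (jb (h (k + 1))).2 (el3 k)
    by_cases hm : m.natAbs ≤ 1
    · simp only [Cp]
      rw [ext1 k hm, ext1 _ (by omega), c k m hm]
    · simp only [Cp]
      rw [ext, dif_neg hm]⟩

lemma idx_eq (a : Lv) (s : Fin a.S) (r : Fin 3) : a.idx (3 * s + r) = (s, r) := by
  have := s.2
  refine Prod.ext (Fin.ext ?_) (Fin.ext ?_) <;> simp only [Lv.idx]
  · rw [show (3 * (s : ℤ) + r) / 3 = s by omega, Int.emod_eq_of_lt (by omega) (by omega)]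
    rfl
  · omega

lemma ne : ∃ ξ, Ok ξ := by
  let b : ∀ k, (lv k).W := fun k => Classical.arbitrary _
  choose s hs using fun k => (b (k + 1)).2 fun _ => b k
  let ω : ℕ → ℤ := fun k => Nat.rec 0 (fun k w => w + (lv k).L * (3 * s k + 1)) k
  have wS : ∀ k, ω (k + 1) = ω k + (lv k).L * (3 * s k + 1) := fun _ => rfl
  have s1 : ∀ k, 3 * (s k : ℤ) + 3 ≤ el k := fun k => by have := (s k).2; unfold el; omega
  have w0 : ∀ k, 0 ≤ ω k ∧ ω k < (lv k).L := fun k => by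
    induction k with
    | zero => exact ⟨le_rfl, one_pos⟩
    | succ k ih =>
      have := (lv k).L0
      rw [wS, LS]
      exact ⟨by have := ih.1; positivity, by nlinarith [s1 k]⟩
  have w1 : ∀ k, ω (k + 1) / (lv k).L = 3 * s k + 1 := fun k => by
    rw [wS, Int.add_mul_ediv_left _ _ (lv k).L0.ne', Int.ediv_eq_zero_of_lt (w0 k).1 (w0 k).2,
      zero_add]
  refine ⟨_, ext_ok (t := fun k _ => b k) (ω := ω) (h := fun k => ⟨w0 k, ?_⟩) fun k m hm => ?_⟩
  · rw [wS, Int.add_mul_emod_self_left, Int.emod_eq_of_lt (w0 k).1 (w0 k).2]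
  · simp only [Cp, w1, sub]
    rw [show m + (3 * s k + 1) = 3 * s k + (⟨(m + 1).toNat, by omega⟩ : Fin 3) by simp; omega,
      idx_eq, hs]

def Gd (H : ∀ k, ℤ → (lv k).W ≃ (lv k).W) : Prop := ∀ k p U,
  sub k (H (k + 1) p U) (p / (lv k).L) = H k (p % (lv k).L) (sub k U (p / (lv k).L)) ∧
    ∀ t, t % 3 ≠ p / (lv k).L % 3 → sub k (H (k + 1) p U) t = sub k U t

lemma Gsp (k : ℕ) (p : ℤ) (U : (lv (k + 1)).W) :
    (((lv (k + 1)).G p U).1 ((lv k).idx (p / (lv k).L)) =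
      (lv k).G (p % (lv k).L) (U.1 ((lv k).idx (p / (lv k).L)))) ∧
    (∀ x ≠ (lv k).idx (p / (lv k).L), (lv k).rel ((lv (k + 1)).lt U p) (U.1 x)
      (((lv (k + 1)).G p U).1 x)) ∧
    ∀ x : Fin (lv k).S × Fin 3, x.2 ≠ ((lv k).idx (p / (lv k).L)).2 →
      ((lv (k + 1)).G p U).1 x = U.1 x :=
  ((lv k).exG ((lv k).idx (p / (lv k).L)) ((lv k).G (p % (lv k).L))
    fun b => (lv k).lt b (p % (lv k).L)).choose_spec U

lemma Gd1 : Gd fun k => (lv k).G := fun k p U =>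
  ⟨(Gsp k p U).1, fun t ht => (Gsp k p U).2.2 _ fun e => ht (by
    have := congrArg Fin.val e
    simp only [Lv.idx] at this
    omega)⟩

lemma Gd.symm {H} (h : Gd H) : Gd fun k p => (H k p).symm := fun k p U => by
  have := h k p ((H (k + 1) p).symm U)
  rw [Equiv.apply_symm_apply] at this
  exact ⟨by rw [this.1, Equiv.symm_apply_apply], fun t ht => (this.2 t ht).symm⟩

abbrev X : Type := {ξ // Ok ξ}

noncomputable def phi {H} (h : Gd H) (ξ : X) : X :=
  ⟨(ext (fun k m => if m = 0 then H k (ξ.1.2 k) (ξ.1.1 k 0) else ξ.1.1 k m) ξ.1.2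
    fun k => (ξ.2 k 0).1, ξ.1.2), ext_ok fun k m hm => by
      obtain ⟨j0, j1⟩ := jb (ξ.2 (k + 1) 0).1
      have c := (ξ.2 k m).2
      simp only [Cp] at c ⊢
      split_ifs with a b b
      · rw [a, zero_add, (h k _ _).1, ← (ξ.2 k 0).1.2, ← a, c, b, a, zero_add]
      · exact absurd (by rw [a, zero_add, Int.ediv_eq_zero_of_lt j0 j1]) b
      · rw [(h k _ _).2 _ (by omega), c, b]
      · exact c⟩

lemma phi1 {H} (h : Gd H) (ξ : X) (k : ℕ) {m : ℤ} (hm : m.natAbs ≤ 1) :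
    (phi h ξ).1.1 k m = if m = 0 then H k (ξ.1.2 k) (ξ.1.1 k 0) else ξ.1.1 k m := ext1 k hm

lemma phi_inv {H} (h : Gd H) (ξ : X) : phi h.symm (phi h ξ) = ξ :=
  Subtype.ext (Prod.ext (funext fun k => funext fun m =>
    (agree (phi h.symm (phi h ξ)).2 ξ.2 m.natAbs k rfl fun m hm => by
      rw [phi1 _ _ _ hm, phi1 _ _ _ hm, phi1 _ _ _ (by simp)]
      split_ifs with a b
      · exact a ▸ Equiv.symm_apply_apply _ _
      · exact absurd rfl b
      · rfl).2 m (by omega)) rfl)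

lemma ev1 (ξ : Am) (k : ℕ) (m : ℤ) : ∀ᶠ η in 𝓝 ξ, η.1 k m = ξ.1 k m :=
  (by fun_prop : Continuous fun η : Am => η.1 k m).continuousAt.eventually
    (p := fun x => x = ξ.1 k m) (by simp)

lemma ev2 (ξ : Am) (k : ℕ) : ∀ᶠ η in 𝓝 ξ, η.2 k = ξ.2 k :=
  (by fun_prop : Continuous fun η : Am => η.2 k).continuousAt.eventually
    (p := fun x => x = ξ.2 k) (by simp)

lemma tend {ι : Type} {F : Filter ι} {f : ι → X} {ξ : X}
    (h : ∀ K, ∀ᶠ i in F, (f i).1.2 K = ξ.1.2 K ∧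
      ∀ m : ℤ, m.natAbs ≤ 1 → (f i).1.1 K m = ξ.1.1 K m) : Tendsto f F (𝓝 ξ) :=
  tendsto_subtype_rng.2 (Tendsto.prodMk_nhds (tendsto_pi_nhds.2 fun k => tendsto_pi_nhds.2 fun m =>
    tendsto_const_nhds.congr' ((h (k + m.natAbs)).mono fun i hi =>
      ((agree (f i).2 ξ.2 _ k hi.1 hi.2).2 m (by omega)).symm)) (tendsto_pi_nhds.2 fun k =>
        tendsto_const_nhds.congr' ((h k).mono fun _ hi => hi.1.symm)))

lemma phi_cont {H} (h : Gd H) : Continuous (phi h) := continuous_iff_continuousAt.2 fun ξ =>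
  tend fun K => (continuous_subtype_val.continuousAt (x := ξ)).eventually
    (p := fun η => η.2 K = ξ.1.2 K ∧ η.1 K 0 = ξ.1.1 K 0 ∧ η.1 K 1 = ξ.1.1 K 1 ∧
      η.1 K (-1) = ξ.1.1 K (-1))
    ((ev2 _ K).and ((ev1 _ K 0).and ((ev1 _ K 1).and (ev1 _ K _)))) |>.mono
    fun η ⟨a, b, c, d⟩ => ⟨a, fun m hm => by
      rw [phi1 _ _ _ hm, phi1 _ _ _ hm, a, b]
      split_ifs
      · rfl
      · obtain rfl | rfl : m = 1 ∨ m = -1 := by omega
        exacts [c, d]⟩

noncomputable def Phi : X ≃ₜ X where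
  toFun := phi Gd1
  invFun := phi Gd1.symm
  left_inv := phi_inv Gd1
  right_inv := phi_inv Gd1.symm
  continuous_toFun := phi_cont _
  continuous_invFun := phi_cont _

lemma act_cont (n : ℤ) : Continuous (act n) := continuous_iff_continuousAt.2 fun ξ =>
  Tendsto.prodMk_nhds (tendsto_pi_nhds.2 fun k => tendsto_pi_nhds.2 fun m =>
    tendsto_const_nhds.congr' (((ev2 ξ k).and (ev1 ξ k (m + (ξ.2 k + n) / (lv k).L))).mono
      fun η hη => by simp only [hη.1]; exact hη.2.symm)) (tendsto_pi_nhds.2 fun k =>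
        tendsto_const_nhds.congr' ((ev2 ξ k).mono fun η hη => by simp only [hη]))

noncomputable def T : X ≃ₜ X where
  toFun ξ := ⟨act 1 ξ.1, ξ.2.act 1⟩
  invFun ξ := ⟨act (-1) ξ.1, ξ.2.act _⟩
  left_inv ξ := Subtype.ext ((act_add _ _ _).trans (by rw [add_neg_cancel]; exact ξ.2.zero))
  right_inv ξ := Subtype.ext ((act_add _ _ _).trans (by rw [neg_add_cancel]; exact ξ.2.zero))
  continuous_toFun := ((act_cont _).comp continuous_subtype_val).subtype_mk _
  continuous_invFun := ((act_cont _).comp continuous_subtype_val).subtype_mk _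

lemma T_it (n : ℕ) (ξ : X) : (T^[n] ξ).1 = act n ξ.1 := by
  induction n with
  | zero => exact ξ.2.zero.symm
  | succ n ih =>
    rw [iterate_succ_apply']
    exact (congrArg (act 1) ih).trans (act_add _ _ _)

instance : CompactSpace X := isCompact_iff_compactSpace.1 (IsCompact.of_isClosed_subset
  (s := univ ×ˢ univ.pi fun k => Icc 0 (lv k).L)
  (isCompact_univ.prod (isCompact_univ_pi fun _ => (finite_Icc _ _).isCompact))
  (isOpen_compl_iff.1 (isOpen_iff_eventually.2 fun ξ hξ => by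
    obtain ⟨k, h⟩ := not_forall.1 hξ
    obtain ⟨m, h⟩ := not_forall.1 h
    filter_upwards [ev2 ξ k, ev2 ξ (k + 1), ev1 ξ k m,
      ev1 ξ (k + 1) ((m + ξ.2 (k + 1) / (lv k).L) / el k)] with η a b c d e
    have := e k m
    simp only [Ok1, Cp, a, b, c, d] at this
    exact h this)) fun ξ h => ⟨trivial, fun k _ => ⟨(h k 0).1.1.1, (h k 0).1.1.2.le⟩⟩)

lemma dense (ξ : X) : Dense (range fun n : ℕ => T^[n] ξ) := fun η => by
  have : ∀ K, ∃ n : ℕ, (T^[n] ξ).1.2 K = η.1.2 K ∧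
      ∀ m : ℤ, m.natAbs ≤ 1 → (T^[n] ξ).1.1 K m = η.1.1 K m := fun K => by
    obtain ⟨s, hs⟩ := (ξ.1.1 (K + 1) 1).2 fun r => η.1.1 K (r - 1)
    obtain ⟨j0, j1⟩ := jb (ξ.2 (K + 1) 0).1
    obtain ⟨q, hq⟩ : ∃ q, q = el K + 3 * s + 1 - ξ.1.2 (K + 1) / (lv K).L := ⟨_, rfl⟩
    have a := (ξ.2 K 0).1.1
    have b := (η.2 K 0).1.1
    have l0 := (lv K).L0
    obtain ⟨n, hn⟩ := Int.eq_ofNat_of_zero_le (a := η.1.2 K + (lv K).L * q - ξ.1.2 K)
      (by nlinarith [show 1 ≤ q by omega])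
    refine ⟨n, ?_, fun m hm => ?_⟩ <;> simp only [T_it, act, ← hn, add_sub_cancel]
    · rw [Int.add_mul_emod_self_left, Int.emod_eq_of_lt b.1 b.2]
    · have := s.2
      have e : el K = 3 * (lv K).S := rfl
      rw [Int.add_mul_ediv_left _ _ l0.ne', Int.ediv_eq_zero_of_lt b.1 b.2, (ξ.2 K _).2,
        show m + (0 + q) + ξ.1.2 (K + 1) / (lv K).L =
          3 * s + (⟨(m + 1).toNat, by omega⟩ : Fin 3) + el K * 1 by
            simp only [hq]; omega, sub_per,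
        Int.add_mul_ediv_left _ _ (by omega), Int.ediv_eq_zero_of_lt (by omega) (by omega),
        zero_add, sub, idx_eq, hs]
      exact congrArg (η.1.1 K) (show (((m + 1).toNat : ℕ) : ℤ) - 1 = m by omega)
  choose n hn using this
  refine mem_closure_of_tendsto (b := atTop) (f := fun K => T^[n K] ξ) (tend fun K => ?_)
    (Eventually.of_forall fun K => ⟨_, rfl⟩)
  filter_upwards [eventually_ge_atTop K] with i hi
  obtain ⟨e, rfl⟩ := Nat.exists_eq_add_of_le hi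
  exact (agree (T^[n (K + e)] ξ).2 η.2 e K (hn _).1 (hn _).2).imp_right fun h m hm =>
    h m (by omega)

lemma avoid (ξ : X) (m : ℤ) (hm : m ≠ 0) (k : ℕ) :
    (lv k).rel (ξ.1.1 0 0) (ξ.1.1 k m) ((Phi ξ).1.1 k m) := by
  have c : ∀ k, (lv k).lt (ξ.1.1 k 0) (ξ.1.2 k) = ξ.1.1 0 0 := fun k => by
    induction k with
    | zero => rfl
    | succ k ih =>
      obtain ⟨j0, j1⟩ := jb (ξ.2 (k + 1) 0).1
      rw [← ih, (ξ.2 k 0).2, (ξ.2 k 0).1.2, zero_add, Int.ediv_eq_zero_of_lt j0 j1]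
      rfl
  induction hn : m.natAbs using Nat.strong_induction_on generalizing m k with
  | _ n ih =>
    by_cases h1 : m.natAbs ≤ 1
    · rw [show (Phi ξ).1.1 k m = ξ.1.1 k m from (phi1 Gd1 _ _ h1).trans (if_neg hm)]
      exact (lv k).refl _ _
    obtain ⟨j0, j1⟩ := jb (ξ.2 (k + 1) 0).1
    have := shr m j0 j1 (el3 k)
    rw [(ξ.2 k m).2, ((Phi ξ).2 k m).2]
    show (lv k).rel _ _ (sub k ((Phi ξ).1.1 (k + 1) ((m + ξ.1.2 (k + 1) / (lv k).L) / el k))
      (m + ξ.1.2 (k + 1) / (lv k).L))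
    generalize hj : ξ.1.2 (k + 1) / (lv k).L = j at *
    by_cases h2 : (m + j) / el k = 0
    · rw [h2, show (Phi ξ).1.1 (k + 1) 0 = _ from (phi1 Gd1 _ _ (by simp)).trans (if_pos rfl),
        ← c (k + 1)]
      refine (Gsp k _ _).2.1 _ fun e => hm ?_
      have a := congrArg (fun x => x.1.val) e
      have b := congrArg (fun x => x.2.val) e
      have d := Int.mul_ediv_add_emod (m + j) (el k)
      have d1 := Int.emod_nonneg (m + j) (b := el k) (by omega)
      have d2 := Int.emod_lt_of_pos (m + j) (b := el k) (by omega)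
      have e : el k = 3 * (lv k).S := rfl
      simp only [Lv.idx, hj] at a b
      rw [h2] at d
      rw [Int.emod_eq_of_lt (by omega) (by omega), Int.emod_eq_of_lt (by omega) (by omega)] at a
      omega
    · exact ih _ (by omega) _ h2 (k + 1) rfl _

instance : TopologicalSpace.MetrizableSpace X := by
  haveI : ∀ k, SecondCountableTopology (lv k).W := fun k =>
    DiscreteTopology.secondCountableTopology_of_countable
  haveI : ∀ k, T3Space (lv k).W := fun k => inferInstance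
  haveI : ∀ k, SecondCountableTopology (ℤ → (lv k).W) := fun k => inferInstance
  haveI : SecondCountableTopology (∀ k, ℤ → (lv k).W) := inferInstance
  haveI : SecondCountableTopology Am := inferInstance
  haveI : SecondCountableTopology X := TopologicalSpace.Subtype.secondCountableTopology _
  exact TopologicalSpace.metrizableSpace_of_t3_secondCountable X

lemma L0 : (lv 0).L = 1 := rfl

def cl (ξ : X) : ZMod 3 := ξ.1.1 0 0

lemma om0 (ξ : X) : ξ.1.2 0 = 0 := by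
  have := (ξ.2 0 0).1.1
  rw [L0] at this
  omega

lemma cl_T (ξ : X) (n : ℕ) : cl (T^[n] ξ) = ξ.1.1 0 n := by
  simp only [cl, T_it, act, om0, L0, zero_add, Int.ediv_one]

lemma cl_Phi (ξ : X) : cl (Phi ξ) = cl ξ - 1 :=
  (phi1 Gd1 ξ 0 (by simp)).trans (if_pos rfl)

lemma cl_ev (ξ : X) : ∀ᶠ η in 𝓝 ξ, cl η = cl ξ :=
  (continuous_subtype_val.continuousAt (x := ξ)).eventually
    (p := fun η => η.1 0 0 = ξ.1.1 0 0) (ev1 _ 0 0)

noncomputable def S : X ≃ₜ X := Phi.trans (T.trans Phi.symm)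

lemma S_it (n : ℕ) (ξ : X) : Phi (S^[n] ξ) = T^[n] (Phi ξ) := by
  induction n with
  | zero => rfl
  | succ n ih =>
    rw [iterate_succ_apply', iterate_succ_apply', ← ih]
    exact Phi.apply_symm_apply _

lemma denseS (ξ : X) : Dense (range fun n : ℕ => S^[n] ξ) := by
  have := Phi.symm.surjective.denseRange.dense_image Phi.symm.continuous (dense (Phi ξ))
  rw [← range_comp] at this
  exact this.mono (by
    rintro _ ⟨n, rfl⟩
    exact ⟨n, by simp only [comp, ← S_it, Homeomorph.symm_apply_apply]⟩)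

lemma norec (ξ : X) (n : ℕ) (hn : 0 < n) (a : cl (T^[n] ξ) = cl ξ) (b : cl (S^[n] ξ) = cl ξ) :
    False := by
  refine avoid ξ n (by omega) 0 ⟨(cl_T ξ n).symm.trans a, ?_⟩
  have := cl_Phi (S^[n] ξ)
  rw [S_it, cl_T, b] at this
  exact (congrArg (fun x : ZMod 3 => x + 1) this).trans (sub_add_cancel _ _)

end Pool.Agent.H.MP_ef2f7d_an
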